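import Mathlib
import Pool.Agent.H24.Opn.MaxExp

/-!
# A bound for the exponent of the Euler prime (and for all exponents) of an odd perfect number

Let `N = ∏ p ^ e_p` be an odd solution of `b σ(N) = a N` (`a = 2`, `b = 1`: an odd perfect number), let
`P` be its largest prime factor, and let `R` be the largest of the numbers
`r_q = #{p ∣ N : q ∣ σ(p ^ e_p)}`, `q ∣ N`; so `R ≤ ω(N)`.  Then every single component of `N` satisfies
`log (q ^ e_q) ≤ C (log P) ^ 25 (√P + R)`, where `C` depends on `a` and `b` only.  This applies to the
Euler prime `q` with its exponent `k = e_q`; Sorli's conjecture is that `k = 1`.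

Primitive prime divisors of `q ^ (e_q + 1) - 1` (Zsigmondy) give `e_q < P` only.  On the other hand
`e_q ≥ r_q - O(1)` for trivial reasons: up to a power of `log P` and the term `√P`, the largest exponent
of `N` is the largest of the numbers `r_q`.

Proof.  Let `q ^ e_q` be the largest component.  Put `M(p) = v_q(σ(p ^ e_p)) log q`; the sum of the
`M(p)` is at least `e_q log q - O(1)`.  If `m` of these numbers are larger than `X`, then the products of
the `m` primes `p` give many elements of the group of the `x` modulo a high power of `q` with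
`x ^ (q - 1) = 1`, which has only `q - 1` elements; hence `X ≤ m P ^ (1 / m) log P + 4 log P`.  With
`m = 2` and `m = ⌈log P⌉` this shows that the sum of all `M(p)` but the largest one is at most
`12 (log P) ^ 2 (√P + r_q)` (`Pool.Agent.H24.Opn.MaxExp.tail`).  The largest one belongs to a prime `p`
with `log (p ^ e_p) ≤ log (q ^ e_q)`, so that `p ^ (e_p + 1) - 1 = u q ^ k` with a small
`u`.  By the lower bound of Baker's type of `Pool.Agent.H24.Opn.Bak.bakerB`,
`e_p + 1 ≤ Y ^ 22 (log u + 2)` with `Y = ⌈3 log P⌉`.
-/

namespace Pool.Agent.Results.MP_5b3ee2_nt.ExponentBound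

/-- **Main theorem.** Let `a`, `b` be natural numbers, `b > 0`.  There is `C` such that for all odd `N`
with `b σ(N) = a N` (for `a = 2`, `b = 1`: all odd perfect numbers) the following holds.  If all prime
factors of `N` are at most `P` and, for each prime factor `q` of `N`, there are at most `R` prime factors
`p` of `N` with `q ∣ σ(p ^ v_p(N))`, then `v_q(N) log q ≤ C (log P) ^ 25 (√P + R)` for all prime factors
`q` of `N`. -/
theorem result (a b : ℕ) (hb : 0 < b) :
    ∃ C : ℝ, ∀ N : ℕ, Odd N → b * ∑ d ∈ N.divisors, d = a * N →
      ∀ P R : ℕ, (∀ q ∈ N.primeFactors, q ≤ P) →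
        (∀ q ∈ N.primeFactors,
          {p ∈ N.primeFactors | q ∣ ∑ d ∈ (p ^ N.factorization p).divisors, d}.card ≤ R) →
        ∀ q ∈ N.primeFactors, (N.factorization q : ℝ) * Real.log q ≤
          C * Real.log P ^ 25 * (Real.sqrt P + R) :=
  Pool.Agent.H24.Opn.MaxExp.main a b hb

end Pool.Agent.Results.MP_5b3ee2_nt.ExponentBound
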